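import Mathlib

/-! The orbit of `0` under `x ↦ x^l + a` modulo primes `p` with `p ≢ 1 (mod l)`. -/

namespace TH742.OC

/-- The map `x ↦ x ^ l + a` on `ℚ`. -/
def f (l : ℕ) (a x : ℚ) : ℚ := x ^ l + a

/-- The set `S(f, α)` for `f = x ^ l + a`, whose only critical point is `0`: the primes `p` such that
`a` and `α` are `p`-integral and some iterate `f^n(α)` is congruent to `0` modulo `p`. -/
def S (l : ℕ) (a α : ℚ) : Set ℕ :=
  {p | p.Prime ∧ ¬ p ∣ a.den ∧ ¬ p ∣ α.den ∧ ∃ n : ℕ, (p : ℤ) ∣ ((f l a)^[n] α).num}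

section
variable {p : ℕ} [Fact p.Prime]

lemma den_ne {x : ℚ} (hx : ¬ p ∣ x.den) : ((x.den : ℕ) : ZMod p) ≠ 0 := by
  rwa [Ne, ZMod.natCast_eq_zero_iff]

lemma cast_f {l : ℕ} {a x : ℚ} (ha : ¬ p ∣ a.den) (hx : ¬ p ∣ x.den) :
    ¬ p ∣ (f l a x).den ∧ ((f l a x : ℚ) : ZMod p) = (x : ZMod p) ^ l + (a : ZMod p) := by
  have hp := Fact.out (p := p.Prime)
  have hpow : ¬ p ∣ (x ^ l).den := by
    rw [Rat.den_pow]
    exact fun h => hx (hp.dvd_of_dvd_pow h)
  constructor
  · intro h
    have h1 := h.trans (Rat.add_den_dvd (x ^ l) a)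
    rcases hp.dvd_mul.1 h1 with h2 | h2
    · exact hpow h2
    · exact ha h2
  · unfold f
    rw [Rat.cast_add_of_ne_zero (den_ne hpow) (den_ne ha)]
    congr 1
    clear hpow
    have key : ∀ m : ℕ, ((x ^ m : ℚ) : ZMod p) = (x : ZMod p) ^ m := by
      intro m
      induction m with
      | zero => simp
      | succ m ih =>
        have hm : ¬ p ∣ (x ^ m).den := by
          rw [Rat.den_pow]
          exact fun h => hx (hp.dvd_of_dvd_pow h)
        rw [pow_succ, Rat.cast_mul_of_ne_zero (den_ne hm) (den_ne hx), ih, pow_succ]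
    exact key l

/-- the reduction of the map -/
def g (l : ℕ) (b : ZMod p) (y : ZMod p) : ZMod p := y ^ l + b

lemma iter {l : ℕ} {a : ℚ} (ha : ¬ p ∣ a.den) (n : ℕ) :
    ¬ p ∣ ((f l a)^[n] 0).den ∧
      (((f l a)^[n] 0 : ℚ) : ZMod p) = (g l (a : ZMod p))^[n] 0 := by
  induction n with
  | zero =>
    simp only [Function.iterate_zero, id_eq]
    refine ⟨?_, by simp⟩
    have hp := Fact.out (p := p.Prime)
    simp [hp.one_lt.ne']
  | succ n ih =>
    rw [Function.iterate_succ_apply', Function.iterate_succ_apply']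
    have := cast_f (l := l) ha ih.1
    refine ⟨this.1, ?_⟩
    rw [this.2, ih.2]; rfl

lemma pow_inj {l : ℕ} (hl : (p - 1).Coprime l) (hl0 : l ≠ 0) :
    Function.Injective fun y : ZMod p => y ^ l := by
  intro y z h
  simp only at h
  by_cases hy : y = 0
  · subst hy
    rw [zero_pow hl0] at h
    exact (pow_eq_zero_iff hl0 |>.1 h.symm).symm
  · have hz : z ≠ 0 := by
      rintro rfl
      rw [zero_pow hl0] at h
      exact hy ((pow_eq_zero_iff hl0).1 h)
    have hc : (Nat.card (ZMod p)ˣ).Coprime l := by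
      rw [Nat.card_eq_fintype_card, ZMod.card_units]
      exact hl
    have h1 : (Units.mk0 y hy) ^ l = (Units.mk0 z hz) ^ l := by
      ext; simpa using h
    have h2 := (powCoprime hc).injective h1
    simpa using congrArg (fun u : (ZMod p)ˣ => (u : ZMod p)) h2

lemma periodic {l : ℕ} (hl : (p - 1).Coprime l) (hl0 : l ≠ 0) (b : ZMod p) (k : ℕ) :
    ∃ n : ℕ, (g l b)^[n] ((g l b)^[k] 0) = 0 := by
  have hinj : Function.Injective (g l b) := by
    intro y z h
    apply pow_inj hl hl0
    simp only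
    unfold g at h
    exact add_right_cancel h
  let σ : Equiv.Perm (ZMod p) := Equiv.ofBijective (g l b) (Finite.injective_iff_bijective.1 hinj)
  have hσ : ∀ m : ℕ, ∀ y, (σ ^ m) y = (g l b)^[m] y := by
    intro m y
    rw [← Equiv.Perm.iterate_eq_pow]; rfl
  have hN : 0 < orderOf σ := orderOf_pos σ
  refine ⟨orderOf σ * k - k, ?_⟩
  rw [← Function.iterate_add_apply]
  have h1 : orderOf σ * k - k + k = orderOf σ * k := by
    have : 1 * k ≤ orderOf σ * k := Nat.mul_le_mul_right _ hN
    omega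
  rw [h1, ← hσ, pow_mul, pow_orderOf_eq_one, one_pow]; rfl

end

theorem mem_S {l p : ℕ} (hp : p.Prime) (hl : (p - 1).Coprime l) (hl0 : l ≠ 0) {a : ℚ}
    (ha : ¬ p ∣ a.den) (k : ℕ) : p ∈ S l a ((f l a)^[k] 0) := by
  have := Fact.mk hp
  refine ⟨hp, ha, (iter ha k).1, ?_⟩
  obtain ⟨n, hn⟩ := periodic hl hl0 (a : ZMod p) k
  refine ⟨n, ?_⟩
  have h1 := iter (l := l) ha (n + k)
  rw [Function.iterate_add_apply, Function.iterate_add_apply, hn] at h1
  have h2 := h1.2
  rw [Rat.cast_def, div_eq_zero_iff] at h2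
  rcases h2 with h2 | h2
  · exact (ZMod.intCast_zmod_eq_zero_iff_dvd _ _).1 h2
  · exact absurd h2 (den_ne h1.1)

/-- for odd `l` and `a ≠ 0` the orbit of `0` never returns to `0` -/
theorem orbit_ne {l : ℕ} (hl : Odd l) {a : ℚ} (ha : a ≠ 0) (n : ℕ) : (f l a)^[n + 1] 0 ≠ 0 := by
  rcases lt_or_gt_of_ne ha with h | h
  · have key : (f l a)^[n + 1] 0 < 0 := by
      induction n with
      | zero => simp [f, hl.pos.ne', h]
      | succ n ih =>
        rw [Function.iterate_succ_apply']
        unfold f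
        have := hl.pow_neg ih
        unfold f at this
        linarith
    exact key.ne
  · have key : 0 < (f l a)^[n + 1] 0 := by
      induction n with
      | zero => simp [f, hl.pos.ne', h]
      | succ n ih =>
        rw [Function.iterate_succ_apply']
        unfold f
        have := pow_pos ih l
        unfold f at this
        linarith
    exact key.ne'

end TH742.OC
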