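import Pool.Agent.Cov.PNT
import Pool.Agent.TH742.OC.Alg

/-! The lower density. -/

namespace TH742.OC

open Filter Topology Finset

/-- primes `≤ N` not congruent to `1` modulo `l` -/
noncomputable def good (l N : ℕ) : Finset ℕ :=
  (Icc 1 N).filter fun p => p.Prime ∧ (p : ZMod l) ≠ 1

lemma theta_eq (N : ℕ) : Chebyshev.theta N = ∑ p ∈ (Icc 1 N).filter Nat.Prime, Real.log p := by
  unfold Chebyshev.theta
  rw [Nat.floor_natCast]
  apply sum_congr _ (fun _ _ => rfl)
  ext p; simp only [mem_filter, mem_Ioc, mem_Icc]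
  constructor
  · rintro ⟨⟨h1, h2⟩, h3⟩; exact ⟨⟨h1, h2⟩, h3⟩
  · rintro ⟨⟨h1, h2⟩, h3⟩; exact ⟨⟨h1, h2⟩, h3⟩

lemma good_lower (l N : ℕ) [NeZero l] :
    Chebyshev.theta N - ∑ k ∈ Icc 1 N, ArithmeticFunction.vonMangoldt.residueClass (1 : ZMod l) k
      ≤ (good l N).card * Real.log N := by
  rw [theta_eq]
  have h1 : ∑ p ∈ (Icc 1 N).filter Nat.Prime, Real.log p =
      ∑ p ∈ ((Icc 1 N).filter Nat.Prime).filter (fun p : ℕ => (p : ZMod l) = 1), Real.log p +
      ∑ p ∈ ((Icc 1 N).filter Nat.Prime).filter (fun p : ℕ => ¬ (p : ZMod l) = 1), Real.log p :=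
    (sum_filter_add_sum_filter_not _ _ _).symm
  have h2 : ∑ p ∈ ((Icc 1 N).filter Nat.Prime).filter (fun p : ℕ => (p : ZMod l) = 1), Real.log p ≤
      ∑ k ∈ Icc 1 N, ArithmeticFunction.vonMangoldt.residueClass (1 : ZMod l) k := by
    have h3 : ∑ p ∈ ((Icc 1 N).filter Nat.Prime).filter (fun p : ℕ => (p : ZMod l) = 1), Real.log p =
        ∑ p ∈ ((Icc 1 N).filter Nat.Prime).filter (fun p : ℕ => (p : ZMod l) = 1),
          ArithmeticFunction.vonMangoldt.residueClass (1 : ZMod l) p := by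
      apply sum_congr rfl
      intro p hp
      rw [mem_filter, mem_filter] at hp
      unfold ArithmeticFunction.vonMangoldt.residueClass
      rw [Set.indicator_of_mem (by exact hp.2), ArithmeticFunction.vonMangoldt_apply_prime hp.1.2]
    rw [h3]
    apply sum_le_sum_of_subset_of_nonneg
    · intro p hp
      rw [mem_filter, mem_filter] at hp
      exact hp.1.1
    · intro p _ _
      exact ArithmeticFunction.vonMangoldt.residueClass_nonneg _ _
  have h4 : ∑ p ∈ ((Icc 1 N).filter Nat.Prime).filter (fun p : ℕ => ¬ (p : ZMod l) = 1), Real.log p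
      ≤ (good l N).card * Real.log N := by
    have h5 : ((Icc 1 N).filter Nat.Prime).filter (fun p : ℕ => ¬ (p : ZMod l) = 1) = good l N := by
      unfold good
      rw [filter_filter]
    rw [h5, ← nsmul_eq_mul]
    apply sum_le_card_nsmul
    intro p hp
    unfold good at hp
    rw [mem_filter, mem_Icc] at hp
    apply Real.log_le_log
    · exact_mod_cast hp.1.1
    · exact_mod_cast hp.1.2
  linarith

lemma good_sub {l : ℕ} (hl : l.Prime) {a : ℚ} (k N : ℕ) :
    (good l N).card ≤ Set.ncard {p : ℕ | p ≤ N ∧ p ∈ S l a ((f l a)^[k] 0)} + a.den := by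
  classical
  have h1 : good l N ⊆ ((range (N + 1)).filter (fun p => p ∈ S l a ((f l a)^[k] 0))) ∪
      (Icc 1 a.den) := by
    intro p hp
    unfold good at hp
    rw [mem_filter, mem_Icc] at hp
    rw [mem_union]
    by_cases h : p ∣ a.den
    · right
      rw [mem_Icc]
      exact ⟨hp.2.1.one_lt.le, Nat.le_of_dvd a.den_pos h⟩
    · left
      rw [mem_filter, mem_range]
      refine ⟨by omega, mem_S hp.2.1 ?_ hl.ne_zero h k⟩
      rw [Nat.coprime_comm, hl.coprime_iff_not_dvd]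
      intro hd
      apply hp.2.2
      have hp1 := hp.2.1.one_lt
      have : ((p - 1 : ℕ) : ZMod l) = 0 := (ZMod.natCast_eq_zero_iff _ _).2 hd
      have h2 : (p : ZMod l) = ((p - 1 : ℕ) : ZMod l) + 1 := by
        have h3 : ((p - 1 + 1 : ℕ) : ZMod l) = ((p - 1 : ℕ) : ZMod l) + 1 := by push_cast; ring
        rwa [Nat.sub_add_cancel hp1.le] at h3
      rw [h2, this, zero_add]
  have h2 := (card_le_card h1).trans (card_union_le _ _)
  have h3 : Set.ncard {p : ℕ | p ≤ N ∧ p ∈ S l a ((f l a)^[k] 0)} =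
      ((range (N + 1)).filter (fun p => p ∈ S l a ((f l a)^[k] 0))).card := by
    rw [← Set.ncard_coe_finset]
    congr 1
    ext p
    simp
  rw [h3]
  simpa using h2

theorem lower {l : ℕ} (hl : l.Prime) (a : ℚ) (k : ℕ) (ε : ℝ) (hε : 0 < ε) :
    ∀ᶠ N : ℕ in atTop, (((l : ℝ) - 2) / (l - 1) - ε) * Nat.primeCounting N ≤
      (Set.ncard {p : ℕ | p ≤ N ∧ p ∈ S l a ((f l a)^[k] 0)} : ℝ) := by
  have := NeZero.mk hl.ne_zero
  have hc : Tendsto (fun n : ℕ => (n : ℝ)) atTop atTop := tendsto_natCast_atTop_atTop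
  have hpi := (Pool.Agent.Cov.PNT.pi_tendsto).comp hc
  have hθ := (Pool.Agent.Cov.PNT.theta_div_tendsto).comp hc
  have hk := (Pool.Agent.Cov.PNT.pnt_residueClass (q := l) (a := 1) isUnit_one).comp hc
  simp only [Function.comp_def, Nat.floor_natCast] at hpi hθ hk
  have hlog : Tendsto (fun N : ℕ => (a.den : ℝ) * (Real.log N / N)) atTop (𝓝 0) := by
    have h1 : Tendsto (fun x : ℝ => Real.log x / x) atTop (𝓝 0) := by
      have := Real.isLittleO_log_id_atTop.tendsto_div_nhds_zero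
      simpa using this
    have h2 := (h1.comp hc).const_mul (a.den : ℝ)
    simpa [Function.comp_def] using h2
  have hl1 : (1 : ℝ) < l := by exact_mod_cast hl.one_lt
  have hδ : (1 : ℝ) - ((l.totient : ℝ)⁻¹) = ((l : ℝ) - 2) / (l - 1) := by
    rw [Nat.totient_prime hl, Nat.cast_sub hl.one_lt.le, Nat.cast_one]
    have : (l : ℝ) - 1 ≠ 0 := by linarith
    field_simp
    ring
  have hlim : Tendsto (fun N : ℕ => (Chebyshev.theta N / N -
      (∑ k ∈ Icc 1 N, ArithmeticFunction.vonMangoldt.residueClass (1 : ZMod l) k) / N) -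
      (a.den : ℝ) * (Real.log N / N) - (((l : ℝ) - 2) / (l - 1) - ε) *
        ((Nat.primeCounting N : ℝ) * Real.log N / N)) atTop (𝓝 ε) := by
    have h := ((hθ.sub hk).sub hlog).sub (hpi.const_mul (((l : ℝ) - 2) / (l - 1) - ε))
    rw [hδ] at h
    have e : ((l : ℝ) - 2) / (l - 1) - 0 - (((l : ℝ) - 2) / (l - 1) - ε) * 1 = ε := by ring
    rwa [e] at h
  filter_upwards [hlim.eventually (lt_mem_nhds hε), eventually_ge_atTop 2] with N hN hN2
  have hN0 : (0 : ℝ) < N := by
    have : (2 : ℝ) ≤ N := by exact_mod_cast hN2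
    linarith
  have hL : 0 < Real.log N := Real.log_pos (by
    have : (2 : ℝ) ≤ N := by exact_mod_cast hN2
    linarith)
  have h1 := good_lower l N
  have h2 : ((good l N).card : ℝ) ≤
      (Set.ncard {p : ℕ | p ≤ N ∧ p ∈ S l a ((f l a)^[k] 0)} : ℝ) + a.den := by
    exact_mod_cast good_sub hl k N
  set X : ℝ := (Set.ncard {p : ℕ | p ≤ N ∧ p ∈ S l a ((f l a)^[k] 0)} : ℝ) with hX
  set θ := Chebyshev.theta N
  set ψ := ∑ k ∈ Icc 1 N, ArithmeticFunction.vonMangoldt.residueClass (1 : ZMod l) k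
  have h3 : θ - ψ ≤ (X + a.den) * Real.log N :=
    h1.trans (mul_le_mul_of_nonneg_right h2 hL.le)
  have h4 : (((l : ℝ) - 2) / (l - 1) - ε) * ((Nat.primeCounting N : ℝ) * Real.log N) ≤
      X * Real.log N := by
    have h5 : 0 < (θ / N - ψ / N - (a.den : ℝ) * (Real.log N / N) -
      (((l : ℝ) - 2) / (l - 1) - ε) * ((Nat.primeCounting N : ℝ) * Real.log N / N)) * N :=
      mul_pos hN hN0
    have h6 : (θ / N - ψ / N - (a.den : ℝ) * (Real.log N / N) -
      (((l : ℝ) - 2) / (l - 1) - ε) * ((Nat.primeCounting N : ℝ) * Real.log N / N)) * N =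
      θ - ψ - a.den * Real.log N - (((l : ℝ) - 2) / (l - 1) - ε) *
        ((Nat.primeCounting N : ℝ) * Real.log N) := by
      generalize (((l : ℝ) - 2) / (l - 1) - ε) = c
      field_simp
    rw [h6] at h5
    nlinarith [h5, h3]
  have h7 : (((l : ℝ) - 2) / (l - 1) - ε) * (Nat.primeCounting N : ℝ) * Real.log N ≤
      X * Real.log N := by
    rw [mul_assoc]; exact h4
  exact le_of_mul_le_mul_right h7 hL

end TH742.OC
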