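import Pool.Agent.TH742.OC.Dens

/-! A morphism of `ℙ²` over `ℚ` and two points for which few primes avoid the congruence. -/

namespace TH742.OC

open Filter Topology

/-- The map on vectors given by the polynomials `F i`. -/
noncomputable def ev {n : ℕ} (F : Fin n → MvPolynomial (Fin n) ℚ) (v : Fin n → ℚ) : Fin n → ℚ :=
  fun i => MvPolynomial.eval v (F i)

/-- The `F i` are homogeneous of degree `d` without common zero over the algebraic closure. -/
def IsMorphism {n : ℕ} (F : Fin n → MvPolynomial (Fin n) ℚ) (d : ℕ) : Prop :=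
  (∀ i, (F i).IsHomogeneous d) ∧
    ∀ x : Fin n → AlgebraicClosure ℚ, (∀ i, MvPolynomial.aeval x (F i) = 0) → x = 0

/-- Two vectors represent the same point of projective space. -/
def SamePoint {n : ℕ} (v w : Fin n → ℚ) : Prop := ∃ c : ℚ, c ≠ 0 ∧ v = c • w

/-- The coordinates are `p`-integral and one of them is a `p`-unit. -/
def Normalized (p : ℕ) {n : ℕ} (v : Fin n → ℚ) : Prop :=
  (∀ i, padicNorm p (v i) ≤ 1) ∧ ∃ i, padicNorm p (v i) = 1

/-- The points represented by `v` and `w` have the same reduction modulo `p`. -/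
def CongMod (p : ℕ) {n : ℕ} (v w : Fin n → ℚ) : Prop :=
  ∃ s t : ℚ, s ≠ 0 ∧ t ≠ 0 ∧ Normalized p (s • v) ∧ Normalized p (t • w) ∧
    ∀ i, padicNorm p (s * v i - t * w i) < 1

/-- The primes `p` such that no iterate of the point `v` is congruent to the point `w` modulo `p`. -/
def SP {n : ℕ} (F : Fin n → MvPolynomial (Fin n) ℚ) (v w : Fin n → ℚ) : Set ℕ :=
  {p | p.Prime ∧ ∀ m : ℕ, ¬ CongMod p ((ev F)^[m] v) w}

/-- The morphism `(x : y : z) ↦ (x^l + z^l : y^l + 2 z^l : z^l)`. -/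
noncomputable def Phi (l : ℕ) : Fin 3 → MvPolynomial (Fin 3) ℚ :=
  ![MvPolynomial.X 0 ^ l + MvPolynomial.C 1 * MvPolynomial.X 2 ^ l,
    MvPolynomial.X 1 ^ l + MvPolynomial.C 2 * MvPolynomial.X 2 ^ l,
    MvPolynomial.X 2 ^ l]

lemma Phi_morphism {l : ℕ} (hl : l ≠ 0) : IsMorphism (Phi l) l := by
  constructor
  · intro i
    fin_cases i
    · exact (MvPolynomial.isHomogeneous_X_pow 0 l).add
        ((MvPolynomial.isHomogeneous_X_pow 2 l).C_mul 1)
    · exact (MvPolynomial.isHomogeneous_X_pow 1 l).add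
        ((MvPolynomial.isHomogeneous_X_pow 2 l).C_mul 2)
    · exact MvPolynomial.isHomogeneous_X_pow 2 l
  · intro x hx
    have h2 : x 2 = 0 := by
      have := hx 2
      simp [Phi] at this
      exact this.1
    have h0 : x 0 = 0 := by
      have := hx 0
      simp [Phi, h2, zero_pow hl] at this
      exact this.1
    have h1 : x 1 = 0 := by
      have := hx 1
      simp [Phi, h2, zero_pow hl] at this
      exact this.1
    funext i
    fin_cases i
    · exact h0
    · exact h1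
    · exact h2

lemma ev_Phi (l : ℕ) (x y : ℚ) : ev (Phi l) ![x, y, 1] = ![f l 1 x, f l 2 y, 1] := by
  funext i
  fin_cases i <;> simp [ev, Phi, f]

lemma iter_Phi (l m : ℕ) (x y : ℚ) :
    (ev (Phi l))^[m] ![x, y, 1] = ![(f l 1)^[m] x, (f l 2)^[m] y, 1] := by
  induction m with
  | zero => simp
  | succ m ih =>
    rw [Function.iterate_succ_apply', ih, ev_Phi, Function.iterate_succ_apply',
      Function.iterate_succ_apply']

lemma hit {l p : ℕ} (hp : p.Prime) (hl : (p - 1).Coprime l) (hl0 : l ≠ 0) {a : ℚ}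
    (ha : ¬ p ∣ a.den) : ∃ N, 0 < N ∧ ∀ j, (p : ℤ) ∣ ((f l a)^[N * j] 0).num := by
  have := Fact.mk hp
  have hinj : Function.Injective (g l (a : ZMod p)) := by
    intro y z h
    apply pow_inj hl hl0
    simp only
    unfold g at h
    exact add_right_cancel h
  let σ : Equiv.Perm (ZMod p) :=
    Equiv.ofBijective (g l (a : ZMod p)) (Finite.injective_iff_bijective.1 hinj)
  have hσ : ∀ m : ℕ, ∀ y, (σ ^ m) y = (g l (a : ZMod p))^[m] y := by
    intro m y
    rw [← Equiv.Perm.iterate_eq_pow]; rfl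
  refine ⟨orderOf σ, orderOf_pos σ, fun j => ?_⟩
  have h1 := iter (l := l) ha (orderOf σ * j)
  have h2 := h1.2
  rw [← hσ, pow_mul, pow_orderOf_eq_one, one_pow, Equiv.Perm.one_apply, Rat.cast_def,
    div_eq_zero_iff] at h2
  rcases h2 with h2 | h2
  · exact (ZMod.intCast_zmod_eq_zero_iff_dvd _ _).1 h2
  · exact absurd h2 (den_ne h1.1)

lemma norm_lt {p : ℕ} (hp : p.Prime) {x : ℚ} (h : (p : ℤ) ∣ x.num) : padicNorm p x < 1 := by
  have := Fact.mk hp
  have hd : ¬ p ∣ x.den := by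
    intro hd
    have hc := x.reduced
    have h1 : p ∣ x.num.natAbs := Int.natCast_dvd.1 h
    have h2 := Nat.dvd_gcd h1 hd
    rw [hc] at h2
    exact hp.one_lt.ne' (Nat.dvd_one.1 h2)
  rw [← Rat.num_div_den x, padicNorm.div, (padicNorm.nat_eq_one_iff _).2 hd, div_one]
  exact (padicNorm.int_lt_one_iff _).2 h

lemma not_mem_SP {l p : ℕ} (hp : p.Prime) (hl : (p - 1).Coprime l) (hl0 : l ≠ 0) :
    p ∉ SP (Phi l) ![1, 2, 1] ![0, 0, 1] := by
  have := Fact.mk hp
  rintro ⟨_, h⟩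
  obtain ⟨N1, hN1, h1⟩ := hit hp hl hl0 (a := 1) (by simpa using hp.one_lt.ne')
  obtain ⟨N2, hN2, h2⟩ := hit hp hl hl0 (a := 2) (by
    have : (2 : ℚ).den = 1 := rfl
    rw [this]; simpa using hp.one_lt.ne')
  have hpos : 0 < N1 * N2 := Nat.mul_pos hN1 hN2
  obtain ⟨m, hm⟩ : ∃ m, N1 * N2 = m + 1 := ⟨N1 * N2 - 1, by omega⟩
  have e1 : (f l 1)^[m] 1 = (f l 1)^[N1 * N2] 0 := by
    rw [hm, Function.iterate_succ_apply]
    simp [f, zero_pow hl0]
  have e2 : (f l 2)^[m] 2 = (f l 2)^[N2 * N1] 0 := by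
    rw [mul_comm, hm, Function.iterate_succ_apply]
    simp [f, zero_pow hl0]
  apply h m
  rw [iter_Phi, e1, e2]
  have n1 := norm_lt hp (h1 N2)
  have n2 := norm_lt hp (h2 N1)
  refine ⟨1, 1, one_ne_zero, one_ne_zero, ⟨?_, 2, by simp⟩, ⟨?_, 2, by simp⟩, ?_⟩
  · intro i
    fin_cases i
    · simpa using n1.le
    · simpa using n2.le
    · simp
  · intro i
    fin_cases i <;> simp
  · intro i
    fin_cases i
    · simpa using n1
    · simpa using n2
    · simp

end TH742.OC
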