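import Pool.Agent.TH742.OC.Proj

/-! The upper density of the avoiding primes. -/

namespace TH742.OC

open Filter Topology Finset

theorem good_ev {l : ℕ} (hl : l.Prime) (ε : ℝ) (hε : 0 < ε) :
    ∀ᶠ N : ℕ in atTop, (((l : ℝ) - 2) / (l - 1) - ε) * Nat.primeCounting N ≤
      ((good l N).card : ℝ) := by
  have := NeZero.mk hl.ne_zero
  have hc : Tendsto (fun n : ℕ => (n : ℝ)) atTop atTop := tendsto_natCast_atTop_atTop
  have hpi := (Pool.Agent.Cov.PNT.pi_tendsto).comp hc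
  have hθ := (Pool.Agent.Cov.PNT.theta_div_tendsto).comp hc
  have hk := (Pool.Agent.Cov.PNT.pnt_residueClass (q := l) (a := 1) isUnit_one).comp hc
  simp only [Function.comp_def, Nat.floor_natCast] at hpi hθ hk
  have hl1 : (1 : ℝ) < l := by exact_mod_cast hl.one_lt
  have hδ : (1 : ℝ) - ((l.totient : ℝ)⁻¹) = ((l : ℝ) - 2) / (l - 1) := by
    rw [Nat.totient_prime hl, Nat.cast_sub hl.one_lt.le, Nat.cast_one]
    have : (l : ℝ) - 1 ≠ 0 := by linarith
    field_simp
    ring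
  have hlim : Tendsto (fun N : ℕ => (Chebyshev.theta N / N -
      (∑ k ∈ Icc 1 N, ArithmeticFunction.vonMangoldt.residueClass (1 : ZMod l) k) / N) -
      (((l : ℝ) - 2) / (l - 1) - ε) *
        ((Nat.primeCounting N : ℝ) * Real.log N / N)) atTop (𝓝 ε) := by
    have h := (hθ.sub hk).sub (hpi.const_mul (((l : ℝ) - 2) / (l - 1) - ε))
    rw [hδ] at h
    have e : ((l : ℝ) - 2) / (l - 1) - (((l : ℝ) - 2) / (l - 1) - ε) * 1 = ε := by ring
    rwa [e] at h
  filter_upwards [hlim.eventually (lt_mem_nhds hε), eventually_ge_atTop 2] with N hN hN2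
  have hN0 : (0 : ℝ) < N := by
    have : (2 : ℝ) ≤ N := by exact_mod_cast hN2
    linarith
  have hL : 0 < Real.log N := Real.log_pos (by
    have : (2 : ℝ) ≤ N := by exact_mod_cast hN2
    linarith)
  have h1 := good_lower l N
  set X : ℝ := ((good l N).card : ℝ) with hX
  set θ := Chebyshev.theta N
  set ψ := ∑ k ∈ Icc 1 N, ArithmeticFunction.vonMangoldt.residueClass (1 : ZMod l) k
  have h4 : (((l : ℝ) - 2) / (l - 1) - ε) * ((Nat.primeCounting N : ℝ) * Real.log N) ≤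
      X * Real.log N := by
    have h5 : 0 < (θ / N - ψ / N -
      (((l : ℝ) - 2) / (l - 1) - ε) * ((Nat.primeCounting N : ℝ) * Real.log N / N)) * N :=
      mul_pos hN hN0
    have h6 : (θ / N - ψ / N -
      (((l : ℝ) - 2) / (l - 1) - ε) * ((Nat.primeCounting N : ℝ) * Real.log N / N)) * N =
      θ - ψ - (((l : ℝ) - 2) / (l - 1) - ε) *
        ((Nat.primeCounting N : ℝ) * Real.log N) := by
      generalize (((l : ℝ) - 2) / (l - 1) - ε) = c
      field_simp
    rw [h6] at h5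
    nlinarith [h5, h1]
  have h7 : (((l : ℝ) - 2) / (l - 1) - ε) * (Nat.primeCounting N : ℝ) * Real.log N ≤
      X * Real.log N := by
    rw [mul_assoc]; exact h4
  exact le_of_mul_le_mul_right h7 hL

lemma good_coprime {l N p : ℕ} (hl : l.Prime) (h : p ∈ good l N) :
    p.Prime ∧ (p - 1).Coprime l ∧ p ≤ N := by
  unfold good at h
  rw [mem_filter, mem_Icc] at h
  refine ⟨h.2.1, ?_, h.1.2⟩
  rw [Nat.coprime_comm, hl.coprime_iff_not_dvd]
  intro hd
  apply h.2.2
  have hp1 := h.2.1.one_lt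
  have : ((p - 1 : ℕ) : ZMod l) = 0 := (ZMod.natCast_eq_zero_iff _ _).2 hd
  have h2 : (p : ZMod l) = ((p - 1 : ℕ) : ZMod l) + 1 := by
    have h3 : ((p - 1 + 1 : ℕ) : ZMod l) = ((p - 1 : ℕ) : ZMod l) + 1 := by push_cast; ring
    rwa [Nat.sub_add_cancel hp1.le] at h3
  rw [h2, this, zero_add]

lemma SP_card {l : ℕ} (hl : l.Prime) (N : ℕ) :
    Set.ncard {p : ℕ | p ≤ N ∧ p ∈ SP (Phi l) ![1, 2, 1] ![0, 0, 1]} + (good l N).card ≤
      Nat.primeCounting N := by
  classical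
  set A := (range (N + 1)).filter (fun p => p ∈ SP (Phi l) ![1, 2, 1] ![0, 0, 1]) with hA
  have h1 : Set.ncard {p : ℕ | p ≤ N ∧ p ∈ SP (Phi l) ![1, 2, 1] ![0, 0, 1]} = A.card := by
    rw [← Set.ncard_coe_finset]
    congr 1
    ext p
    simp [hA]
  have h2 : Disjoint A (good l N) := by
    rw [Finset.disjoint_left]
    intro p hp hg
    rw [hA, mem_filter] at hp
    obtain ⟨g1, g2, _⟩ := good_coprime hl hg
    exact not_mem_SP g1 g2 hl.ne_zero hp.2
  have h3 : Nat.primeCounting N = ((range (N + 1)).filter Nat.Prime).card := by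
    rw [Nat.primeCounting, Nat.primeCounting', Nat.count_eq_card_filter_range]
  rw [h1, ← card_union_of_disjoint h2, h3]
  apply card_le_card
  intro p hp
  rw [mem_filter, mem_range]
  rcases mem_union.1 hp with h | h
  · rw [hA, mem_filter, mem_range] at h
    exact ⟨h.1, h.2.1⟩
  · obtain ⟨g1, _, g3⟩ := good_coprime hl h
    exact ⟨by omega, g1⟩

theorem main {l : ℕ} (hl : l.Prime) (hl2 : l ≠ 2) :
    IsMorphism (Phi l) l ∧ (∀ m : ℕ, ¬ SamePoint ((ev (Phi l))^[m] ![1, 2, 1]) ![0, 0, 1]) ∧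
      ∀ ε : ℝ, 0 < ε → ∀ᶠ N : ℕ in atTop,
        (Set.ncard {p : ℕ | p ≤ N ∧ p ∈ SP (Phi l) ![1, 2, 1] ![0, 0, 1]} : ℝ) ≤
          (1 / ((l : ℝ) - 1) + ε) * Nat.primeCounting N := by
  refine ⟨Phi_morphism hl.ne_zero, ?_, ?_⟩
  · rintro m ⟨c, _, h⟩
    rw [iter_Phi] at h
    have h1 := congrFun h 0
    simp at h1
    have h2 := orbit_ne (hl.odd_of_ne_two hl2) (one_ne_zero : (1 : ℚ) ≠ 0) m
    apply h2
    rw [Function.iterate_succ_apply]
    have : f l 1 0 = 1 := by simp [f, zero_pow hl.ne_zero]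
    rw [this]; exact h1
  · intro ε hε
    have hl1 : (1 : ℝ) < l := by exact_mod_cast hl.one_lt
    filter_upwards [good_ev hl ε hε] with N hN
    have h1 : (Set.ncard {p : ℕ | p ≤ N ∧ p ∈ SP (Phi l) ![1, 2, 1] ![0, 0, 1]} : ℝ) +
        ((good l N).card : ℝ) ≤ (Nat.primeCounting N : ℝ) := by
      exact_mod_cast SP_card hl N
    have h2 : ((l : ℝ) - 2) / (l - 1) = 1 - 1 / ((l : ℝ) - 1) := by
      have : (l : ℝ) - 1 ≠ 0 := by linarith
      field_simp
      ring
    rw [h2] at hN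
    linarith

end TH742.OC
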